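import Pool.Agent.H68.BL.Semi

/-!
# Embedding `ℤ^k`-systems in band-limited shifts: all compact semi-algebraic spectra

Question Q1 of `MP_fc1499_an` has a positive answer: for every `k ≥ 1`, every compact semi-algebraic
`Ω ⊆ ℝ^k` and every `ℤ^k`-system `X` with the marker property and `mdim(X) < |Ω|`, the system embeds
in the shift on `B₁(Ω)`.

The definitions are in `Pool/Agent/H68/BL/Defs.lean`. The proof, in `Pool/Agent/H68/BL/`:
* `Semi.lean`: the boundary of a semi-algebraic set is a null set, so `|Ω|` is the volume of the
  interior of `Ω`. (`embeds_of_mdim_lt` in `Geo.lean` holds for every closed `Ω`, with the volume of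
  the interior in place of `|Ω|`.)
* `Geo.lean` packs `J + 1` disjoint cubes of side `1 / (M - 1)` in the interior of `Ω`, with
  `mdim(X) < J / M ^ k`. The signal is built in steps. Each step perturbs slightly the signals with
  spectrum in `J` of the cubes, and uses three new signals with spectrum in tiny cubes inside the last
  cube; all the tiny cubes are disjoint.
* `Kern.lean`, `Syn.lean`: kernels with spectrum in a given cube of side slightly more than `1 / M`,
  which interpolate at the points of a translate of `M ℤ^k`.
* `Gen.lean`, `Sub.lean`, `Dim.lean`, `Main.lean`: since `mdim(X) < J / M ^ k`, a small perturbation of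
  given values in `ℂ^J` at the points of `M ℤ^k` in a box of side `M N'` determines the orbit on the
  box up to `ε` (continuous partitions of unity and generic linear maps).
* `Vor.lean`, `Vol.lean`, `Par.lean`, `Mark.lean`, `Tile.lean`: from the marker property, a tiling of
  `ℤ^k` on two scales, which depends continuously on the point of `X` and which can be read off two
  of the three new signals. The boxes inside the tiles cover most of `ℤ^k`.
* `Sup.lean`, `Step.lean`: the third new signal encodes, by a generic matrix, the point itself (its
  distances to a finite net) at the few times which are not covered by the boxes. So each step gives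
  an `ε`-embedding.
* `Lim.lean`, `Emb.lean`, `Band.lean`: the limit of the steps, and the separation of the disjoint
  parts of the spectrum.
-/

open MeasureTheory
open Pool.Agent.H68.BL

namespace Pool.Agent.Results.MP_fc1499_an.SemialgebraicSpectra

/-- **Q1, affirmative answer.** Let `k ≥ 1`, let `Ω ⊆ ℝ^k` be compact and semi-algebraic, and let
`ℤ^k` act continuously on the compact metric space `X`. If the system has the marker property and
`mdim(X) < |Ω|`, then it embeds in the shift on `B₁(Ω)`. -/
theorem result (k : ℕ) (hk : 1 ≤ k) (Ω : Set (E k)) (hΩ : IsCompact Ω) (hsa : IsSemialgebraic Ω)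
    (X : Type*) [MetricSpace X] [CompactSpace X] [AddAction (Fin k → ℤ) X]
    (hT : ∀ n : Fin k → ℤ, Continuous fun x : X => n +ᵥ x)
    (hMP : MarkerProperty k X) (hdim : mdim k X < volume Ω) :
    Embeds k X Ω :=
  embeds_of_mdim_lt hk hT hMP hΩ.isClosed (hsa.volume_interior.symm ▸ hdim)

end Pool.Agent.Results.MP_fc1499_an.SemialgebraicSpectra
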